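import Pool.Agent.Y184.SP.Base4
import Mathlib.Analysis.Calculus.ParametricIntervalIntegral

/-!
Project SP, part 2 (helper184): the normal derivative along a curve on which a function of class
C1 with the submean value property is constant has the mean value properties.
-/

set_option autoImplicit false

open Set Topology Filter MeasureTheory
open scoped ContDiff Real

namespace Pool.Agent.Y248.SP2

open Pool.Agent.Y184.SP

theorem lin_form (L : E →L[ℝ] ℝ) (w : ℂ) :
    L (0, w) = w.re * L (0, 1) + w.im * L (0, Complex.I) := by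
  have h : ((0, w) : E) = w.re • ((0, 1) : E) + w.im • ((0, Complex.I) : E) := by
    refine Prod.ext ?_ ?_
    · simp
    · simp [Complex.re_add_im]
  rw [h, map_add, map_smul, map_smul]
  simp

theorem two_re (φ : E → ℝ) (x w : ℂ) :
    fderiv ℝ φ (x, 0) (0, w) = 2 * (gd φ x * w).re := by
  rw [lin_form]
  simp only [gd]
  simp only [Complex.mul_re, Complex.div_re, Complex.sub_re, Complex.sub_im, Complex.mul_im,
    Complex.div_im, Complex.ofReal_re, Complex.ofReal_im, Complex.I_re, Complex.I_im]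
  norm_num
  ring

/-- the derivative in `t` of the circle integral -/
theorem key (φ : E → ℝ) (x0 : ℂ) (c ρ M : ℝ) (hρ0 : 0 < ρ)
    (hC : ∀ z ∈ Metric.ball ((x0, 0) : E) ρ, ContDiffAt ℝ 1 φ z ∧ ‖fderiv ℝ φ z‖ < M)
    (hc : ∀ x ∈ Metric.ball x0 ρ, φ (x, 0) = c)
    (hS : ∀ z v : E, ‖z - (x0, 0)‖ < ρ → ‖v‖ < ρ →
      φ z ≤ Real.circleAverage (fun ζ : ℂ => φ (z + ζ • v)) 0 1)
    (x : ℂ) (hx : ‖x - x0‖ < ρ / 2) (r : ℝ) (hr0 : 0 < r) (hr : r < ρ / 2) (y b : ℂ) :
    ∫ θ in (0:ℝ)..2 * π, (gd φ (x + r * circleMap 0 1 θ) * (y + circleMap 0 1 θ * b)).re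
      = 2 * π * (gd φ x * y).re := by
  have hcirc : ∀ θ : ℝ, ‖circleMap 0 1 θ‖ = 1 := by intro θ; simp
  have hrn : ∀ θ : ℝ, ‖(r : ℂ) * circleMap 0 1 θ‖ = r := by
    intro θ
    rw [norm_mul, hcirc, mul_one, Complex.norm_real, Real.norm_eq_abs, abs_of_pos hr0]
  have hmem : ∀ θ : ℝ, ‖x + r * circleMap 0 1 θ - x0‖ < ρ := by
    intro θ
    have h1 : x + r * circleMap 0 1 θ - x0 = (x - x0) + r * circleMap 0 1 θ := by ring
    rw [h1]
    refine (norm_add_le _ _).trans_lt ?_
    rw [hrn]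
    linarith
  set K : ℝ := ‖y‖ + ‖b‖ + 1 with hK
  have hK0 : 0 < K := by positivity
  set δ : ℝ := ρ / K with hδ
  have hδ0 : 0 < δ := by positivity
  have hw : ∀ θ : ℝ, ‖y + circleMap 0 1 θ * b‖ ≤ K := by
    intro θ
    refine (norm_add_le _ _).trans ?_
    rw [norm_mul, hcirc, one_mul, hK]
    linarith
  have hsmall : ∀ t : ℝ, |t| < δ → ∀ w : ℂ, ‖w‖ ≤ K → ‖(t : ℂ) * w‖ < ρ := by
    intro t ht w hwK
    rw [norm_mul, Complex.norm_real, Real.norm_eq_abs]
    calc |t| * ‖w‖ ≤ |t| * K := mul_le_mul_of_nonneg_left hwK (abs_nonneg _)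
      _ < δ * K := mul_lt_mul_of_pos_right ht hK0
      _ = ρ := by rw [hδ]; field_simp
  -- the points
  set p : ℝ → ℝ → E := fun t θ => (x + r * circleMap 0 1 θ, (t : ℂ) * (y + circleMap 0 1 θ * b))
    with hp
  have hpball : ∀ t : ℝ, |t| < δ → ∀ θ, p t θ ∈ Metric.ball ((x0, 0) : E) ρ := by
    intro t ht θ
    rw [mem_ball_iff_norm, hp]
    simp only [Prod.mk_sub_mk, Prod.norm_mk, sub_zero]
    exact max_lt (hmem θ) (hsmall t ht _ (hw θ))
  have hpcont : ∀ t, Continuous (p t) := by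
    intro t
    simp only [hp]
    fun_prop
  have hFcont : ∀ t : ℝ, |t| < δ → Continuous (fun θ => φ (p t θ)) := by
    intro t ht
    rw [continuous_iff_continuousAt]
    intro θ
    exact ((hC _ (hpball t ht θ)).1.continuousAt).comp (hpcont t).continuousAt
  have hDcont : ∀ t : ℝ, |t| < δ → Continuous (fun θ => fderiv ℝ φ (p t θ)) := by
    intro t ht
    rw [continuous_iff_continuousAt]
    intro θ
    have h1 : ContinuousAt (fderiv ℝ φ) (p t θ) :=
      ((hC _ (hpball t ht θ)).1.fderiv_right (m := 0) (by simp)).continuousAt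
    exact ContinuousAt.comp h1 (hpcont t).continuousAt
  have h0 : |(0 : ℝ)| < δ := by simpa using hδ0
  have hder : ∀ t : ℝ, |t| < δ → ∀ θ, HasDerivAt (fun t => φ (p t θ))
      (fderiv ℝ φ (p t θ) (0, y + circleMap 0 1 θ * b)) t := by
    intro t ht θ
    have h1 : HasFDerivAt φ (fderiv ℝ φ (p t θ)) (p t θ) :=
      ((hC _ (hpball t ht θ)).1.differentiableAt (by simp)).hasFDerivAt
    have h2 : HasDerivAt (fun t : ℝ => p t θ) (0, y + circleMap 0 1 θ * b) t := by
      simp only [hp]
      refine HasDerivAt.prodMk (hasDerivAt_const _ _) ?_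
      have h3 : HasDerivAt (fun t : ℝ => (t : ℂ)) 1 t := Complex.ofRealCLM.hasDerivAt
      simpa using h3.mul_const (y + circleMap 0 1 θ * b)
    exact h1.comp_hasDerivAt t h2
  have hM := intervalIntegral.hasDerivAt_integral_of_dominated_loc_of_deriv_le
    (μ := volume) (a := 0) (b := 2 * π) (F := fun t θ => φ (p t θ))
    (F' := fun t θ => fderiv ℝ φ (p t θ) (0, y + circleMap 0 1 θ * b))
    (x₀ := (0 : ℝ)) (s := Metric.ball 0 δ) (bound := fun _ => M * K)
    (Metric.ball_mem_nhds _ hδ0)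
    (by
      filter_upwards [Metric.ball_mem_nhds (0 : ℝ) hδ0] with t ht
      have ht' : |t| < δ := by simpa using ht
      exact (hFcont t ht').aestronglyMeasurable)
    ((hFcont 0 h0).intervalIntegrable _ _)
    (by
      have : Continuous fun θ => fderiv ℝ φ (p 0 θ) (0, y + circleMap 0 1 θ * b) :=
        (hDcont 0 h0).clm_apply (by fun_prop)
      exact this.aestronglyMeasurable)
    (by
      refine Eventually.of_forall fun θ _ t ht => ?_
      have ht' : |t| < δ := by simpa using ht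
      refine (ContinuousLinearMap.le_opNorm _ _).trans ?_
      have h2 : ‖((0, y + circleMap 0 1 θ * b) : E)‖ ≤ K := by
        rw [Prod.norm_mk]
        exact max_le (by simpa using hK0.le) (hw θ)
      exact mul_le_mul (hC _ (hpball t ht' θ)).2.le h2 (norm_nonneg _)
        ((norm_nonneg _).trans (hC _ (hpball t ht' θ)).2.le))
    (intervalIntegrable_const)
    (by
      refine Eventually.of_forall fun θ _ t ht => ?_
      have ht' : |t| < δ := by simpa using ht
      exact hder t ht' θ)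
  have hxball : ∀ t : ℝ, |t| < δ → ((x, (t : ℂ) * y) : E) ∈ Metric.ball ((x0, 0) : E) ρ := by
    intro t ht
    rw [mem_ball_iff_norm]
    simp only [Prod.mk_sub_mk, Prod.norm_mk, sub_zero]
    exact max_lt (by linarith) (hsmall t ht _ (by rw [hK]; linarith [norm_nonneg b]))
  have hder2 : HasDerivAt (fun t : ℝ => φ (x, (t : ℂ) * y)) (fderiv ℝ φ (x, 0) (0, y)) 0 := by
    have h1 : HasFDerivAt φ (fderiv ℝ φ (x, ((0 : ℝ) : ℂ) * y)) (x, ((0 : ℝ) : ℂ) * y) :=
      ((hC _ (hxball 0 h0)).1.differentiableAt (by simp)).hasFDerivAt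
    have h2 : HasDerivAt (fun t : ℝ => ((x, (t : ℂ) * y) : E)) (0, y) 0 := by
      refine HasDerivAt.prodMk (hasDerivAt_const _ _) ?_
      have h3 : HasDerivAt (fun t : ℝ => (t : ℂ)) 1 0 := Complex.ofRealCLM.hasDerivAt
      simpa using h3.mul_const y
    have h4 := h1.comp_hasDerivAt (0 : ℝ) h2
    simpa [Function.comp_def] using h4
  have hG := hM.2.sub (hder2.const_mul (2 * π))
  have hmin : IsLocalMin (fun t : ℝ => (∫ θ in (0:ℝ)..2 * π, φ (p t θ))
      - 2 * π * φ (x, (t : ℂ) * y)) 0 := by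
    filter_upwards [Metric.ball_mem_nhds (0 : ℝ) hδ0] with t ht
    have ht' : |t| < δ := by simpa using ht
    have hz : (∫ θ in (0:ℝ)..2 * π, φ (p 0 θ)) - 2 * π * φ (x, ((0 : ℝ) : ℂ) * y) = 0 := by
      have h1 : ∀ θ, φ (p 0 θ) = c := by
        intro θ
        simp only [hp, Complex.ofReal_zero, zero_mul]
        exact hc _ (by rw [mem_ball_iff_norm]; exact hmem θ)
      have h2 : φ (x, ((0 : ℝ) : ℂ) * y) = c := by
        rw [Complex.ofReal_zero, zero_mul]
        exact hc _ (by rw [mem_ball_iff_norm]; linarith)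
      simp only [h1, h2, intervalIntegral.integral_const, smul_eq_mul]
      ring
    rw [hz]
    have h3 := hS (x, (t : ℂ) * y) ((r : ℂ), (t : ℂ) * b)
      (by have := hxball t ht'; rwa [mem_ball_iff_norm] at this)
      (by
        rw [Prod.norm_mk]
        refine max_lt ?_ (hsmall t ht' _ (by rw [hK]; linarith [norm_nonneg y]))
        rw [Complex.norm_real, Real.norm_eq_abs, abs_of_pos hr0]
        linarith)
    rw [Real.circleAverage_def] at h3
    have h4 : (fun θ : ℝ => φ ((x, (t : ℂ) * y) + circleMap 0 1 θ • (((r : ℂ), (t : ℂ) * b) : E)))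
        = fun θ => φ (p t θ) := by
      funext θ
      congr 1
      simp only [hp, Prod.smul_mk, Prod.mk_add_mk, smul_eq_mul]
      refine Prod.ext ?_ ?_
      · simp only; ring
      · simp only; ring
    rw [h4, smul_eq_mul] at h3
    have hpi : (0 : ℝ) < 2 * π := by positivity
    have h5 : 2 * π * φ (x, (t : ℂ) * y) ≤ 2 * π * ((2 * π)⁻¹ * ∫ θ in (0:ℝ)..2 * π, φ (p t θ)) :=
      mul_le_mul_of_nonneg_left h3 hpi.le
    rw [← mul_assoc, mul_inv_cancel₀ hpi.ne', one_mul] at h5
    linarith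
  have hfin := hmin.hasDerivAt_eq_zero hG
  have h6 : ∀ θ : ℝ, fderiv ℝ φ (p 0 θ) (0, y + circleMap 0 1 θ * b)
      = 2 * (gd φ (x + r * circleMap 0 1 θ) * (y + circleMap 0 1 θ * b)).re := by
    intro θ
    simp only [hp, Complex.ofReal_zero, zero_mul]
    exact two_re φ _ _
  rw [two_re] at hfin
  simp only [h6] at hfin
  rw [intervalIntegral.integral_const_mul] at hfin
  linarith

theorem scale : StScale := by
  intro φ x0 c hC hc hS
  obtain ⟨r1, hr1, hS⟩ := hS
  have hcont : ContinuousAt (fderiv ℝ φ) (x0, 0) :=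
    (hC.self_of_nhds.fderiv_right (m := 0) (by simp)).continuousAt
  have hbd : ∀ᶠ z in 𝓝 ((x0, 0) : E), ‖fderiv ℝ φ z‖ < ‖fderiv ℝ φ (x0, 0)‖ + 1 :=
    hcont.norm.eventually_lt continuousAt_const (by linarith)
  obtain ⟨r2, hr2, h2⟩ := Metric.eventually_nhds_iff_ball.1 (hC.and hbd)
  obtain ⟨r3, hr3, h3⟩ := Metric.eventually_nhds_iff_ball.1 hc
  set M := ‖fderiv ℝ φ (x0, 0)‖ + 1
  set ρ := min r1 (min r2 r3) with hρ
  have hρ0 : 0 < ρ := lt_min hr1 (lt_min hr2 hr3)
  have hρ1 : ρ ≤ r1 := min_le_left _ _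
  have hρ2 : ρ ≤ r2 := (min_le_right _ _).trans (min_le_left _ _)
  have hρ3 : ρ ≤ r3 := (min_le_right _ _).trans (min_le_right _ _)
  have hC' : ∀ z ∈ Metric.ball ((x0, 0) : E) ρ, ContDiffAt ℝ 1 φ z ∧ ‖fderiv ℝ φ z‖ < M :=
    fun z hz => h2 z (Metric.ball_subset_ball hρ2 hz)
  have hc' : ∀ x ∈ Metric.ball x0 ρ, φ (x, 0) = c :=
    fun x hx => h3 x (Metric.ball_subset_ball hρ3 hx)
  refine ⟨ρ / 2, by positivity, fun x hx r hr0 hr => ?_⟩
  have hk := key φ x0 c ρ M hρ0 hC' hc'
    (fun z v hz hv => hS z v (hz.trans_le hρ1) (hv.trans_le hρ1)) x hx r hr0 hr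
  have hcirc : ∀ θ : ℝ, ‖circleMap 0 1 θ‖ = 1 := by intro θ; simp
  have hrn : ∀ θ : ℝ, ‖(r : ℂ) * circleMap 0 1 θ‖ = r := by
    intro θ
    rw [norm_mul, hcirc, mul_one, Complex.norm_real, Real.norm_eq_abs, abs_of_pos hr0]
  have hmem : ∀ θ : ℝ, ‖x + r * circleMap 0 1 θ - x0‖ < ρ := by
    intro θ
    have h1 : x + r * circleMap 0 1 θ - x0 = (x - x0) + r * circleMap 0 1 θ := by ring
    rw [h1]
    refine (norm_add_le _ _).trans_lt ?_
    rw [hrn]
    linarith
  have hgc : Continuous (fun θ : ℝ => gd φ (x + r * circleMap 0 1 θ)) := by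
    have hD : Continuous (fun θ : ℝ => fderiv ℝ φ ((x + r * circleMap 0 1 θ, 0) : E)) := by
      rw [continuous_iff_continuousAt]
      intro θ
      have hb : ((x + r * circleMap 0 1 θ, 0) : E) ∈ Metric.ball ((x0, 0) : E) ρ := by
        rw [mem_ball_iff_norm]
        simp only [Prod.mk_sub_mk, Prod.norm_mk, sub_zero, norm_zero]
        exact max_lt (hmem θ) hρ0
      have h1 : ContinuousAt (fderiv ℝ φ) ((x + r * circleMap 0 1 θ, 0) : E) :=
        ((hC' _ hb).1.fderiv_right (m := 0) (by simp)).continuousAt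
      have h2 : Continuous (fun θ : ℝ => ((x + r * circleMap 0 1 θ, 0) : E)) := by fun_prop
      exact ContinuousAt.comp (f := fun θ : ℝ => ((x + r * circleMap 0 1 θ, 0) : E)) h1
        h2.continuousAt
    unfold gd
    have h1 : Continuous (fun θ : ℝ => fderiv ℝ φ ((x + r * circleMap 0 1 θ, 0) : E) (0, 1)) :=
      hD.clm_apply continuous_const
    have h2 : Continuous (fun θ : ℝ => fderiv ℝ φ ((x + r * circleMap 0 1 θ, 0) : E)
        (0, Complex.I)) := hD.clm_apply continuous_const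
    fun_prop
  have hζ : Continuous (fun θ : ℝ => circleMap 0 1 θ) := by fun_prop
  have hre : ∀ h : ℝ → ℂ, Continuous h → (∫ θ in (0:ℝ)..2 * π, h θ).re
      = ∫ θ in (0:ℝ)..2 * π, (h θ).re := by
    intro h hh
    exact (Complex.reCLM.intervalIntegral_comp_comm (hh.intervalIntegrable 0 (2 * π))).symm
  have him : ∀ h : ℝ → ℂ, Continuous h → (∫ θ in (0:ℝ)..2 * π, h θ).im
      = ∫ θ in (0:ℝ)..2 * π, (h θ).im := by
    intro h hh
    exact (Complex.imCLM.intervalIntegral_comp_comm (hh.intervalIntegrable 0 (2 * π))).symm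
  have hpi : (2 * π : ℝ) ≠ 0 := by positivity
  constructor
  · rw [Real.circleAverage_def]
    have hI : (∫ θ in (0:ℝ)..2 * π, gd φ (x + r * circleMap 0 1 θ)) = (2 * π : ℝ) • gd φ x := by
      apply Complex.ext
      · rw [hre _ hgc]
        have := hk 1 0
        simp only [mul_zero, add_zero, mul_one] at this
        rw [this]
        simp
      · rw [him _ hgc]
        have := hk Complex.I 0
        simp only [mul_zero, add_zero, Complex.mul_re, Complex.I_re, Complex.I_im, mul_one,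
          zero_sub, intervalIntegral.integral_neg] at this
        have h7 : (∫ θ in (0:ℝ)..2 * π, (gd φ (x + r * circleMap 0 1 θ)).im)
          = 2 * π * (gd φ x).im := by linarith
        rw [h7]
        simp
    rw [hI, smul_smul, inv_mul_cancel₀ hpi, one_smul]
  · rw [Real.circleAverage_def]
    have hm : Continuous (fun θ : ℝ => circleMap 0 1 θ * gd φ (x + r * circleMap 0 1 θ)) :=
      hζ.mul hgc
    have hI : (∫ θ in (0:ℝ)..2 * π, circleMap 0 1 θ * gd φ (x + r * circleMap 0 1 θ)) = 0 := by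
      apply Complex.ext
      · rw [hre _ hm]
        have := hk 0 1
        simp only [zero_add, mul_one, mul_zero, Complex.zero_re] at this
        rw [Complex.zero_re, ← this]
        congr 1
        funext θ
        rw [mul_comm]
      · rw [him _ hm]
        have := hk 0 Complex.I
        simp only [zero_add, mul_zero, Complex.zero_re] at this
        rw [Complex.zero_im]
        have h8 : (∫ θ in (0:ℝ)..2 * π, (circleMap 0 1 θ * gd φ (x + r * circleMap 0 1 θ)).im)
            = - ∫ θ in (0:ℝ)..2 * π,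
              (gd φ (x + r * circleMap 0 1 θ) * (circleMap 0 1 θ * Complex.I)).re := by
          rw [← intervalIntegral.integral_neg]
          refine intervalIntegral.integral_congr fun θ _ => ?_
          simp only [Complex.mul_re, Complex.mul_im, Complex.I_re, Complex.I_im]
          ring
        rw [h8, this, neg_zero]
    rw [hI, smul_zero]

end Pool.Agent.Y248.SP2
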