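import Pool.Agent.Y184.SP.Base4

/-!
Project SP, part 2 (helper184): maximum principles on the torus and on the Riemann sphere.
-/

set_option autoImplicit false

open Set Topology Filter MeasureTheory
open scoped ContDiff Real

namespace Pool.Agent.Y248.SP2

open Pool.Agent.Y184.SP

/-- a continuous function bounded by `m` on a circle with circle average at least `m` is `m` on
the circle -/
theorem circ (v : ℂ → ℝ) (x : ℂ) (r m : ℝ) (hr : 0 < r)
    (hc : Continuous fun θ : ℝ => v (circleMap x r θ))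
    (hle : ∀ y, ‖y - x‖ = r → v y ≤ m) (hav : m ≤ Real.circleAverage v x r) :
    ∀ y, ‖y - x‖ = r → v y = m := by
  intro y hy
  by_contra hne
  have hlt : v y < m := lt_of_le_of_ne (hle y hy) hne
  have hy' : y ∈ circleMap x r '' Ioc 0 (2 * π) := by
    rw [image_circleMap_Ioc, mem_sphere_iff_norm, hy, abs_of_pos hr]
  obtain ⟨θ, hθ, rfl⟩ := hy'
  have hpi : (0 : ℝ) < 2 * π := by positivity
  have hnorm : ∀ t : ℝ, ‖circleMap x r t - x‖ = r := by
    intro t
    simp [circleMap, abs_of_pos hr]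
  have hpos : 0 < ∫ t in (0:ℝ)..2 * π, (m - v (circleMap x r t)) := by
    refine intervalIntegral.integral_pos hpi (continuous_const.sub hc).continuousOn
      (fun t _ => sub_nonneg.2 (hle _ (hnorm t))) ⟨θ, Ioc_subset_Icc_self hθ, sub_pos.2 hlt⟩
  rw [intervalIntegral.integral_sub (continuous_const.intervalIntegrable _ _)
    (hc.intervalIntegrable _ _), intervalIntegral.integral_const, smul_eq_mul, sub_zero] at hpos
  rw [Real.circleAverage_def, smul_eq_mul] at hav
  have h5 : 2 * π * m ≤ 2 * π * ((2 * π)⁻¹ * ∫ t in (0:ℝ)..2 * π, v (circleMap x r t)) :=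
    mul_le_mul_of_nonneg_left hav hpi.le
  rw [← mul_assoc, mul_inv_cancel₀ hpi.ne', one_mul] at h5
  linarith

/-- the strong maximum principle on the plane -/
theorem glob (v : ℂ → ℝ) (hv : Continuous v) (m : ℝ) (hle : ∀ x, v x ≤ m) (hex : ∃ x, v x = m)
    (hs : ∀ x, ∃ r0 : ℝ, 0 < r0 ∧ ∀ r, 0 < r → r < r0 → v x ≤ Real.circleAverage v x r) :
    ∀ x, v x = m := by
  have hcl : IsClosed {x | v x = m} := isClosed_eq hv continuous_const
  have hop : IsOpen {x | v x = m} := by
    rw [isOpen_iff_mem_nhds]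
    intro x hx
    obtain ⟨r0, hr0, h⟩ := hs x
    filter_upwards [Metric.ball_mem_nhds x hr0] with y hy
    rw [mem_ball_iff_norm] at hy
    rcases eq_or_lt_of_le (norm_nonneg (y - x)) with h0 | h0
    · have : y = x := by
        rw [← sub_eq_zero]
        exact norm_eq_zero.1 h0.symm
      rw [this]
      exact hx
    · refine circ v x ‖y - x‖ m h0 (hv.comp (continuous_circleMap _ _)) (fun z _ => hle z) ?_ y rfl
      have h1 := h _ h0 hy
      rw [mem_ofPred_eq] at hx
      rwa [hx] at h1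
  have hu : {x | v x = m} = univ := IsClopen.eq_univ ⟨hcl, hop⟩ hex
  intro x
  have : x ∈ {x | v x = m} := by rw [hu]; trivial
  exact this

theorem tor : StTor := by
  intro v hv hper hs
  set K : Set ℂ := Icc (0 : ℝ) 1 ×ℂ Icc (0 : ℝ) 1 with hK
  have hKc : IsCompact K := isCompact_Icc.reProdIm isCompact_Icc
  have h0 : (0 : ℂ) ∈ K := by
    rw [hK, Complex.mem_reProdIm]
    simp
  obtain ⟨x1, hx1, hmax⟩ := hKc.exists_isMaxOn ⟨0, h0⟩ hv.continuousOn
  refine ⟨v x1, glob v hv (v x1) ?_ ⟨x1, rfl⟩ hs⟩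
  intro x
  set l : ℂ := (((-⌊x.re⌋ : ℤ) : ℂ)) + ((-⌊x.im⌋ : ℤ) : ℂ) * Complex.I with hl
  have hlL : l ∈ Lam := ⟨_, _, rfl⟩
  rw [← hper x l hlL]
  refine hmax ?_
  rw [hK, Complex.mem_reProdIm]
  constructor
  · have h1 : (x + l).re = Int.fract x.re := by
      rw [hl, ← Int.self_sub_floor]
      simp [sub_eq_add_neg]
    rw [h1]
    exact ⟨Int.fract_nonneg _, (Int.fract_lt_one _).le⟩
  · have h1 : (x + l).im = Int.fract x.im := by
      rw [hl, ← Int.self_sub_floor]
      simp [sub_eq_add_neg]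
    rw [h1]
    exact ⟨Int.fract_nonneg _, (Int.fract_lt_one _).le⟩

theorem sph : StSph := by
  intro k k' hk hk' hkk hs hs'
  by_cases hA : ∀ η, k η ≤ k' 0
  · obtain ⟨r0, hr0, h⟩ := hs'
    have hr : 0 < r0 / 2 := by positivity
    have hav := h (r0 / 2) hr (by linarith)
    have hk'v : ∀ ζ : ℂ, ζ ≠ 0 → k' ζ = k ζ⁻¹ := by
      intro ζ hζ
      rw [hkk _ (inv_ne_zero hζ), inv_inv]
    have hne : ∀ θ : ℝ, circleMap 0 (r0 / 2) θ ≠ 0 := by
      intro θ
      exact circleMap_ne_center hr.ne'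
    have hcont : Continuous fun θ : ℝ => k' (circleMap 0 (r0 / 2) θ) := by
      have h1 : (fun θ : ℝ => k' (circleMap 0 (r0 / 2) θ))
          = fun θ : ℝ => k ((circleMap 0 (r0 / 2) θ)⁻¹) := by
        funext θ
        exact hk'v _ (hne θ)
      rw [h1]
      exact hk.comp ((continuous_circleMap _ _).inv₀ hne)
    have hc := circ k' 0 (r0 / 2) (k' 0) hr hcont (by
      intro y hy
      have hy0 : y ≠ 0 := by
        rintro rfl
        rw [sub_zero, norm_zero] at hy
        linarith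
      rw [hk'v y hy0]
      exact hA _) hav ((r0 / 2 : ℝ) : ℂ) (by
        rw [sub_zero, Complex.norm_real, Real.norm_eq_abs, abs_of_pos hr])
    refine ⟨k' 0, glob k hk (k' 0) hA ⟨(((r0 / 2 : ℝ) : ℂ))⁻¹, ?_⟩ hs⟩
    rw [← hk'v _ (by exact_mod_cast hr.ne')]
    exact hc
  · push Not at hA
    obtain ⟨η0, hη0⟩ := hA
    have hlim : Tendsto k (cocompact ℂ) (𝓝 (k' 0)) := by
      have h1 : Tendsto (fun η : ℂ => k' η⁻¹) (cocompact ℂ) (𝓝 (k' 0)) := by
        have h2 : Tendsto (fun η : ℂ => η⁻¹) (cocompact ℂ) (𝓝 0) := by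
          rw [← Metric.cobounded_eq_cocompact]
          exact tendsto_inv₀_cobounded
        exact hk'.tendsto.comp h2
      refine h1.congr' ?_
      have h3 : ∀ᶠ η : ℂ in cocompact ℂ, η ≠ 0 := by
        have := (isCompact_singleton (x := (0 : ℂ))).compl_mem_cocompact
        filter_upwards [this] with η hη
        simpa using hη
      filter_upwards [h3] with η hη
      exact (hkk η hη).symm
    have hev : ∀ᶠ η in cocompact ℂ, k η ≤ k η0 := by
      filter_upwards [hlim.eventually_lt_const hη0] with η hη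
      exact hη.le
    obtain ⟨x1, hx1⟩ := hk.exists_forall_ge' η0 hev
    exact ⟨k x1, glob k hk (k x1) hx1 ⟨x1, rfl⟩ hs⟩

end Pool.Agent.Y248.SP2
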